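import Pool.Agent.PFE.StmtsE1

/-!
# Squad PFE, row KMX (helper67): the data `KM`
-/

open scoped BigOperators

noncomputable section

namespace Pool.Agent.PFE.H67

open Pool.Agent.PFC.B1 (FS Split)
open Pool.Agent.PFD (RF)

theorem kmx (hSpc : SpcStmt) (hRfc : RfcStmt) (hCfs : CfsStmt) : KmxStmt := by
  intro K A X S J Ω Ω' C _ _ _ _ _ _ _ _ _ _ _ _ y l χ D L F E
  obtain ⟨c, sp, hlam, hj, hpr⟩ := hSpc K A X S J Ω Ω' C y l χ D L F E
  have h1 : ∀ c' : C, sp.pr (E.j c') = c' := by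
    intro c'
    rw [← hj]
    exact sp.pr_j c'
  have h2 : ∀ (c' : C) (a : A), sp.pr (E.j c' * a) = c' * sp.pr a := by
    intro c' a
    rw [← hj]
    exact sp.pr_l c' a
  have h3 : ∀ (a : A) (c' : C), sp.pr (a * E.j c') = sp.pr a * c' := by
    intro a c'
    rw [← hj]
    exact sp.pr_r a c'
  obtain ⟨s, w, hw, hs⟩ := hRfc K A X S J Ω Ω' C y l χ D L F E sp.pr h1 h2 h3 hpr
  obtain ⟨c0, v, h0, -, -, -, hv, hnil, hvt⟩ := hCfs K S C X Ω L.toGS F.toSF l χ E.Q D.hl D.χl
  have hc : ∀ a : C, c.lam a = c0.lam (E.u * a) := by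
    intro a
    rw [hlam, E.ut, E.t0e, h0]
  have hc' : ∀ a : C, c.lam (E.u' * a) = c0.lam a := by
    intro a
    rw [hc, ← mul_assoc, E.uu, one_mul]
  refine ⟨{
    c := c
    cs := ?_
    sp := sp
    d := D.d
    ds := D.ds
    ort := ?_
    s := ⟨s.x, s.y, ?_, ?_⟩
    u := E.u
    u' := E.u'
    uc := E.uc
    uu := E.uu
    v := v
    vm := hv
    wt := l - 1
    wp := ?_
    tv := ?_
    nil := hnil
    w := w
    wc := ?_
    rw := ?_
    np := ?_ }⟩
  · intro a b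
    rw [hlam, hlam, map_mul E.j, map_mul E.j]
    exact D.ds _ _
  · intro a
    rw [hlam]
    exact (hpr a).symm
  · intro a
    rw [hj]
    exact s.e1 a
  · intro a
    rw [hj]
    exact s.e2 a
  · have := D.hl
    omega
  · intro b
    rw [hc', hc']
    exact hvt b
  · intro b
    rw [hj]
    exact hw b
  · exact hs
  · intro a
    exact D.np a

end Pool.Agent.PFE.H67
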